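import Pool.Agent.PWJ.Reg
import Pool.Agent.PWI.Final

/-!
# PWJ: passing to a subgroup of index `e` costs at most `2 (e - 1)` handles
-/

namespace Pool.Agent.PWI

variable {g n : ℕ}

private theorem step (P N : Subgroup (SG g n)) (hn : N.relIndex P ≠ 0) (m l : ℕ) (hm : m ≤ g)
    (hl : l + 2 * N.relIndex P ≤ m + 1) (T : PMod g n)
    (hT : ∀ k < m, T.1 (sa k) ∈ P ∧ T.1 (sb k) ∈ P)
    (hN : ∀ k < l, T.1 (sa k) ∈ N ∧ T.1 (sb k) ∈ N) :
    ∃ T' : PMod g n, (∀ k < m, T'.1 (sa k) ∈ P ∧ T'.1 (sb k) ∈ P) ∧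
      ∀ k < l + 1, T'.1 (sa k) ∈ N ∧ T'.1 (sb k) ∈ N := by
  have hTW : ∀ x ∈ (Wi 0 m : Subgroup (SG g n)), T.1 x ∈ P :=
    Wi_map_le T P (fun k _ h => hT k h)
  -- first region
  obtain ⟨S1, i2, hS1, hi2, hI2⟩ := reg P N hn T l m hm (by omega)
    (fun x hx => hTW x (Wi_mono (Nat.zero_le l) le_rfl hx))
  obtain ⟨r1, hr1⟩ : ∃ r1, r1 = m - i2 := ⟨_, rfl⟩
  rw [← hr1] at hI2
  -- second region
  obtain ⟨S2, i1, hS2, hi1, hI1⟩ := reg P N hn (T * S1) l r1 (by omega) (by omega)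
    (fun x hx => hTW _ (Wi_mono (Nat.zero_le l) le_rfl
      (hS1.2.1 x (Wi_mono le_rfl (by omega) hx))))
  have hI2' := hI2.comp hS2
  have hlr : l < r1 - i1 := by omega
  -- `a_l`
  obtain ⟨v1, hv1, h1⟩ := hI1 (sa l)⁻¹ ((Wi _ _).inv_mem (sa_mem_Wi le_rfl hlr)) 1
    (one_mem_Sim _ _)
  have h1' : (T * S1 * S2).1 (sa l * v1) ∈ N := by
    have := N.inv_mem h1
    rw [mul_one, map_inv] at this
    rw [map_mul]
    have e : (((T * S1 * S2).1 v1)⁻¹ * ((T * S1 * S2).1 (sa l))⁻¹)⁻¹ =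
      (T * S1 * S2).1 (sa l) * (T * S1 * S2).1 v1 := by group
    rw [e] at this
    exact this
  obtain ⟨S3, hS3, e3⟩ := slideA (g := g) (n := n) (q := l) (r := r1) (by omega)
    (Sim_left (by omega) (by omega : l + 1 ≤ r1 - i1) hv1)
  have hI2'' := hI2'.comp hS3
  have h3a : (T * S1 * S2 * S3).1 (sa l) ∈ N := by
    show (T * S1 * S2).1 (S3.1 (sa l)) ∈ N
    rw [e3]
    exact h1'
  -- `b_l`
  obtain ⟨v2, hv2, h2⟩ := hI2'' (sb l) (sb_mem_Wi le_rfl (by omega)) 1 (one_mem_Sim _ _)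
  obtain ⟨S4, hS4, e4, f4⟩ := slideB (g := g) (n := n) (q := l) (r := m) hm
    (Sim_left hm (by omega : l + 1 ≤ r1) hv2)
  have h4a : (T * S1 * S2 * S3 * S4).1 (sa l) ∈ N := by
    show (T * S1 * S2 * S3).1 (S4.1 (sa l)) ∈ N
    rw [e4]
    exact h3a
  have h4b : (T * S1 * S2 * S3 * S4).1 (sb l) ∈ N := by
    show (T * S1 * S2 * S3).1 (S4.1 (sb l)) ∈ N
    rw [f4, map_mul, map_inv]
    rw [mul_one] at h2
    exact h2
  have hS : SuppI (S1 * S2 * S3 * S4) l m :=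
    (((hS1.mul (hS2.mono le_rfl (by omega))).mul (hS3.mono le_rfl (by omega))).mul hS4)
  refine ⟨T * S1 * S2 * S3 * S4, fun k hk => ?_, fun k hk => ?_⟩
  · have hS' := hS.mono (Nat.zero_le l) (le_refl m)
    exact ⟨hTW _ (hS'.2.1 _ (sa_mem_Wi (Nat.zero_le k) hk)),
      hTW _ (hS'.2.1 _ (sb_mem_Wi (Nat.zero_le k) hk))⟩
  · rcases Nat.lt_or_ge k l with h | h
    · have ea := hS.fix (Or.inl le_rfl) (sa_mem_Wi (Nat.zero_le k) h)
      have eb := hS.fix (Or.inl le_rfl) (sb_mem_Wi (Nat.zero_le k) h)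
      constructor
      · show T.1 ((S1 * S2 * S3 * S4).1 (sa k)) ∈ N
        rw [ea]
        exact (hN k h).1
      · show T.1 ((S1 * S2 * S3 * S4).1 (sb k)) ∈ N
        rw [eb]
        exact (hN k h).2
    · have : k = l := by omega
      subst this
      exact ⟨h4a, h4b⟩

/-- Passing to a subgroup of index `e` costs at most `2 (e - 1)` handles. -/
theorem handles_index (P N : Subgroup (SG g n)) (hn : N.relIndex P ≠ 0) (m : ℕ) (hm : m ≤ g)
    (h : ContainsHandles P m) : ContainsHandles N (m - 2 * (N.relIndex P - 1)) := by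
  obtain ⟨T0, hT0⟩ := h
  have claim : ∀ l, l + 2 * (N.relIndex P - 1) ≤ m → ∃ T : PMod g n,
      (∀ k < m, T.1 (sa k) ∈ P ∧ T.1 (sb k) ∈ P) ∧ ∀ k < l, T.1 (sa k) ∈ N ∧ T.1 (sb k) ∈ N := by
    intro l
    induction l with
    | zero => exact fun _ => ⟨T0, hT0, fun k hk => absurd hk (Nat.not_lt_zero k)⟩
    | succ l ih =>
      intro hl
      obtain ⟨T, h1, h2⟩ := ih (by omega)
      exact step P N hn m l hm (by omega) T h1 h2
  rcases Nat.lt_or_ge m (2 * (N.relIndex P - 1)) with h | h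
  · refine ⟨1, fun k hk => absurd hk (by omega)⟩
  · obtain ⟨T, -, h2⟩ := claim (m - 2 * (N.relIndex P - 1)) (by omega)
    exact ⟨T, h2⟩

end Pool.Agent.PWI
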