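import Pool.Agent.PWJ.Chain
import Pool.Agent.PWJ.Step
import Pool.Agent.PWI.State

/-!
# PWJ: assembly
-/

namespace Pool.Agent.PWI

variable {g n : ℕ}

theorem handles_mono {P : Subgroup (SG g n)} {m m' : ℕ} (h : m' ≤ m) (hP : ContainsHandles P m) :
    ContainsHandles P m' := by
  obtain ⟨T, hT⟩ := hP
  exact ⟨T, fun i hi => hT i (hi.trans_le h)⟩

/-- A normal step with cyclic quotient costs one handle. -/
theorem handles_cyclic (P N : Subgroup (SG g n)) (m : ℕ) (hm : m ≤ g)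
    (hno : (N.subgroupOf P).Normal)
    (hcy : ∃ t ∈ P, ∀ x ∈ P, ∃ e : ℤ, x * (t ^ e)⁻¹ ∈ N)
    (h : ContainsHandles P m) : ContainsHandles N (m - 1) := by
  classical
  obtain ⟨T, hT0⟩ := h
  have hT : ∀ x ∈ (Wd m : Subgroup (SG g n)), T.1 x ∈ P := by
    intro x hx
    unfold Wd at hx
    induction hx using Subgroup.closure_induction with
    | mem x hx =>
      obtain ⟨i, hi, rfl | rfl⟩ := hx
      · exact (hT0 i hi).1
      · exact (hT0 i hi).2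
    | one => rw [map_one]; exact P.one_mem
    | mul x y _ _ hx hy => rw [map_mul]; exact P.mul_mem hx hy
    | inv x _ hx => rw [map_inv]; exact P.inv_mem hx
  have hcyc : IsCyclic (P ⧸ N.subgroupOf P) := by
    obtain ⟨t, ht, h⟩ := hcy
    refine ⟨⟨QuotientGroup.mk ⟨t, ht⟩, fun q => ?_⟩⟩
    obtain ⟨x, rfl⟩ := QuotientGroup.mk_surjective q
    obtain ⟨e, he⟩ := h x.1 x.2
    refine ⟨e, ?_⟩
    show (QuotientGroup.mk (⟨t, ht⟩ : P) : P ⧸ N.subgroupOf P) ^ e = QuotientGroup.mk x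
    rw [← QuotientGroup.mk_zpow, QuotientGroup.eq]
    have h1 : x * ((⟨t, ht⟩ : P) ^ e)⁻¹ ∈ N.subgroupOf P := by
      rw [Subgroup.mem_subgroupOf]
      exact he
    exact hno.mem_comm h1
  obtain ⟨ψ, hψd⟩ : ∃ ψ : SG g n → P ⧸ N.subgroupOf P, ∀ x, ψ x =
      if h : T.1 x ∈ P then QuotientGroup.mk ⟨T.1 x, h⟩ else 1 := ⟨_, fun _ => rfl⟩
  have hψ : ∀ x ∈ (Wd m : Subgroup (SG g n)), ∀ y ∈ (Wd m : Subgroup (SG g n)),
      ψ (x * y) = ψ x * ψ y := by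
    intro x hx y hy
    rw [hψd, hψd, hψd, dif_pos (hT x hx), dif_pos (hT y hy),
      dif_pos (hT _ ((Wd m).mul_mem hx hy)), ← QuotientGroup.mk_mul]
    congr 1
    exact Subtype.ext (map_mul T.1 x y)
  obtain ⟨T', hT1, hT2⟩ := @euc g n m hm (P ⧸ N.subgroupOf P) IsCyclic.commGroup hcyc ψ hψ
  have key : ∀ x ∈ (Wd m : Subgroup (SG g n)), ψ (T'.1 x) = 1 → T.1 (T'.1 x) ∈ N := by
    intro x hx h1
    rw [hψd, dif_pos (hT _ (hT1 x hx))] at h1
    have h2 := (QuotientGroup.eq_one_iff _).1 h1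
    rwa [Subgroup.mem_subgroupOf] at h2
  refine ⟨T * T', fun i hi => ⟨?_, ?_⟩⟩
  · exact key (sa i) (Subgroup.subset_closure ⟨i, by omega, Or.inl rfl⟩) (hT2 i (by omega)).1
  · exact key (sb i) (Subgroup.subset_closure ⟨i, by omega, Or.inr rfl⟩) (hT2 i (by omega)).2

theorem handles_chain {P M : Subgroup (SG g n)} {c : ℕ} (h : ChainCost P M c) (m : ℕ)
    (hm : m ≤ g) (hP : ContainsHandles P m) : ContainsHandles M (m - c) := by
  induction h with
  | refl => exact hP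
  | @cyc L N c hL hle hno hcy ih =>
    exact handles_mono (by omega) (handles_cyclic L N (m - c) (by omega) hno hcy ih)
  | @idx L N c e hL hle hn he ih =>
    exact handles_mono (by omega) (handles_index L N hn (m - c) (by omega) ih)

theorem final2 (g n : ℕ) (hg : 3 ≤ g) (H : Subgroup (PMod g n)) [H.FiniteIndex]
    (M P : Subgroup (SG g n)) [M.Normal] [M.FiniteIndex] (c : ℕ) (hc : c + 2 ≤ g)
    (hM : ChainCost P M c) (hP : ContainsHandles P (c + 2))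
    (hH : ∀ x ∈ M, ∀ y ∈ M, push (x * y * x⁻¹ * y⁻¹) ∈ H)
    (f : H →* Multiplicative ℤ) (x : SG g n) (hx : push x ∈ H) : f ⟨push x, hx⟩ = 1 := by
  obtain ⟨T, hT⟩ := handles_chain hM (c + 2) hc hP
  have h0 := hT 0 (by omega)
  have h1 := hT 1 (by omega)
  have hN : M.index ≠ 0 := Subgroup.FiniteIndex.index_ne_zero
  have hxM : x ^ M.index ∈ M := Subgroup.pow_index_mem M x
  have hxH : push (x ^ M.index) ∈ H := by
    rw [map_pow]; exact H.pow_mem hx _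
  have h := final_aux hg H f M T h0.1 h0.2 h1.1 h1.2 hH (x ^ M.index) hxM hxH
  have e : (⟨push (x ^ M.index), hxH⟩ : H) = ⟨push x, hx⟩ ^ M.index := by
    apply Subtype.ext
    show push (x ^ M.index) = push x ^ M.index
    rw [map_pow]
  rw [e, map_pow] at h
  exact pow_eq_one_int hN h

theorem main2 (g n : ℕ) (hg : 3 ≤ g) (H : Subgroup (Mcg g n)) [H.FiniteIndex]
    (M P : Subgroup (Pi1 g n)) [M.Normal] [M.FiniteIndex] (c : ℕ) (hc : c + 2 ≤ g)
    (hM : ChainCost P M c) (hP : HasHandles P (c + 2))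
    (hH : ∀ x ∈ M, ∀ y ∈ M, pushPt (x * y * x⁻¹ * y⁻¹) ∈ H)
    (f : H →* Multiplicative ℤ) (x : Pi1 g n) (hx : pushPt x ∈ H) : f ⟨pushPt x, hx⟩ = 1 :=
  @final2 g n hg H ‹_› M P ‹_› ‹_› c hc hM hP hH f x hx

/-- The case of a deck group acting on `d` points. -/
theorem main3 (g n : ℕ) (hg : 3 ≤ g) (H : Subgroup (Mcg g n)) [H.FiniteIndex]
    (M : Subgroup (Pi1 g n)) (d : ℕ) (φ : Pi1 g n →* Equiv.Perm (Fin d))
    (hd : d * (d - 1) + 2 ≤ g) (hφ : φ.ker ≤ M)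
    (hH : ∀ x ∈ M, ∀ y ∈ M, pushPt (x * y * x⁻¹ * y⁻¹) ∈ H)
    (f : H →* Multiplicative ℤ) (x : Pi1 g n) (hx : pushPt x ∈ H) : f ⟨pushPt x, hx⟩ = 1 :=
  main2 g n hg H φ.ker ⊤ (d * (d - 1)) hd (perm_cost d φ)
    ⟨1, fun _ _ => ⟨Subgroup.mem_top _, Subgroup.mem_top _⟩⟩
    (fun x hx y hy => hH x (hφ hx) y (hφ hy)) f x hx

end Pool.Agent.PWI
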