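import Mathlib

/-!
# Chains of subgroups and their cost

`ChainCost P M c`: the subgroup `M` is joined to `P` by a chain of total cost at most `c`, where a
normal step with cyclic quotient costs one and an arbitrary step of index `n` costs `2 (n - 1)`. The kernel of
a homomorphism into the permutations of `d` points has cost at most `d (d - 1)`: fix the points one after the
other.
-/

namespace Pool.Agent.PWI

/-- `ChainCost P M c`: the subgroup `M` is joined to `P` by a chain of subgroups of total cost at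
most `c`, where a step `N ≤ L` costs `1` if `N` is normal in `L` with cyclic quotient, and
`2 (n - 1)` if `N` has finite index `n` in `L`. -/
inductive ChainCost {G : Type} [Group G] (P : Subgroup G) : Subgroup G → ℕ → Prop
  | refl : ChainCost P P 0
  | cyc {L N : Subgroup G} {c : ℕ} (hL : ChainCost P L c) (hle : N ≤ L)
      (hno : (N.subgroupOf L).Normal) (hcy : ∃ t ∈ L, ∀ x ∈ L, ∃ e : ℤ, x * (t ^ e)⁻¹ ∈ N) :
      ChainCost P N (c + 1)
  | idx {L N : Subgroup G} {c e : ℕ} (hL : ChainCost P L c) (hle : N ≤ L) (hn : N.relIndex L ≠ 0)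
      (he : 2 * (N.relIndex L - 1) ≤ e) : ChainCost P N (c + e)

/-- The elements which fix the first `j` points. -/
def fixSub {G : Type} [Group G] {d : ℕ} (φ : G →* Equiv.Perm (Fin d)) (j : ℕ) : Subgroup G where
  carrier := {x | ∀ i : Fin d, i.val < j → φ x i = i}
  one_mem' := fun i _ => by simp
  mul_mem' := fun {x y} hx hy i hi => by
    rw [map_mul, Equiv.Perm.mul_apply, hy i hi, hx i hi]
  inv_mem' := fun {x} hx i hi => by
    rw [map_inv, Equiv.Perm.inv_eq_iff_eq]
    exact (hx i hi).symm

theorem mem_fixSub {G : Type} [Group G] {d : ℕ} {φ : G →* Equiv.Perm (Fin d)} {j : ℕ} {x : G} :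
    x ∈ fixSub φ j ↔ ∀ i : Fin d, i.val < j → φ x i = i := Iff.rfl

theorem fixSub_zero {G : Type} [Group G] {d : ℕ} (φ : G →* Equiv.Perm (Fin d)) : fixSub φ 0 = ⊤ := by
  rw [eq_top_iff]
  intro x _ i hi
  exact absurd hi (Nat.not_lt_zero _)

theorem fixSub_last {G : Type} [Group G] {d : ℕ} (φ : G →* Equiv.Perm (Fin d)) :
    fixSub φ d = φ.ker := by
  ext x
  rw [mem_fixSub, MonoidHom.mem_ker]
  constructor
  · intro h
    ext i
    rw [h i i.isLt, Equiv.Perm.one_apply]
  · intro h i _
    rw [h, Equiv.Perm.one_apply]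

theorem fixSub_succ_le {G : Type} [Group G] {d : ℕ} (φ : G →* Equiv.Perm (Fin d)) (j : ℕ) :
    fixSub φ (j + 1) ≤ fixSub φ j := fun _ hx i hi => hx i (Nat.lt_succ_of_lt hi)

/-- The map from the cosets of the next subgroup to the possible images of the next point. -/
theorem relIndex_fixSub {G : Type} [Group G] {d : ℕ} (φ : G →* Equiv.Perm (Fin d)) {j : ℕ}
    (hj : j < d) :
    (fixSub φ (j + 1)).relIndex (fixSub φ j) ≠ 0 ∧
      (fixSub φ (j + 1)).relIndex (fixSub φ j) ≤ d - j := by
  classical
  set P := fixSub φ j with hP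
  set N := fixSub φ (j + 1) with hN
  let e : Fin d := ⟨j, hj⟩
  have key : ∀ x y : P, φ (x : G) e = φ (y : G) e ↔
      (x : P)⁻¹ * y ∈ N.subgroupOf P := by
    intro x y
    rw [Subgroup.mem_subgroupOf]
    constructor
    · intro h i hi
      rcases Nat.lt_succ_iff_lt_or_eq.mp hi with h1 | h1
      · have hx := x.2 i h1
        have hy := y.2 i h1
        rw [Subgroup.coe_mul, Subgroup.coe_inv, map_mul, Equiv.Perm.mul_apply, hy, map_inv,
          Equiv.Perm.inv_eq_iff_eq]
        exact hx.symm
      · have hie : i = e := Fin.ext h1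
        rw [Subgroup.coe_mul, Subgroup.coe_inv, map_mul, Equiv.Perm.mul_apply, hie, ← h, map_inv,
          Equiv.Perm.inv_eq_iff_eq]
    · intro h
      have h1 := h e (Nat.lt_succ_self j)
      rw [Subgroup.coe_mul, Subgroup.coe_inv, map_mul, Equiv.Perm.mul_apply, map_inv,
        Equiv.Perm.inv_eq_iff_eq] at h1
      exact h1.symm
  have hge : ∀ x : P, j ≤ (φ (x : G) e).val := by
    intro x
    by_contra hlt
    rw [not_le] at hlt
    have h1 := x.2 (φ (x : G) e) hlt
    have h2 : φ (x : G) e = e := (φ (x : G)).injective h1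
    rw [h2] at hlt
    exact lt_irrefl _ hlt
  let F : P ⧸ N.subgroupOf P → {i : Fin d // j ≤ i.val} :=
    Quotient.lift (fun x : P => (⟨φ (x : G) e, hge x⟩ : {i : Fin d // j ≤ i.val}))
      (fun x y hxy => by
        have hxy' := QuotientGroup.leftRel_apply.mp hxy
        exact Subtype.ext ((key x y).mpr hxy'))
  have hF : Function.Injective F := by
    intro a b
    refine Quotient.inductionOn₂ a b fun x y h => ?_
    apply Quotient.sound
    apply QuotientGroup.leftRel_apply.mpr
    exact (key x y).mp (congrArg Subtype.val h)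
  have hfin : Finite (P ⧸ N.subgroupOf P) := Finite.of_injective F hF
  have hcard : Nat.card {i : Fin d // j ≤ i.val} = d - j := by
    rw [Nat.card_eq_fintype_card, Fintype.card_subtype]
    have : (Finset.univ.filter fun i : Fin d => j ≤ i.val) = Finset.Ici e := by
      ext i
      simp [e, Fin.le_def]
    rw [this, Fin.card_Ici]
  refine ⟨?_, ?_⟩
  · rw [Subgroup.relIndex, Subgroup.index]
    exact Nat.card_pos.ne'
  · rw [Subgroup.relIndex, Subgroup.index, ← hcard]
    exact Nat.card_le_card_of_injective F hF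

theorem cost_fixSub {G : Type} [Group G] {d : ℕ} (φ : G →* Equiv.Perm (Fin d)) :
    ∀ j, j ≤ d → ChainCost ⊤ (fixSub φ j) (∑ i ∈ Finset.range j, 2 * (d - i - 1)) := by
  intro j
  induction j with
  | zero =>
    intro _
    rw [fixSub_zero, Finset.range_zero, Finset.sum_empty]
    exact ChainCost.refl
  | succ j ih =>
    intro hj
    rw [Finset.sum_range_succ]
    obtain ⟨h1, h2⟩ := relIndex_fixSub φ (Nat.lt_of_succ_le hj)
    refine ChainCost.idx (ih (Nat.le_of_succ_le hj)) (fixSub_succ_le φ j) h1 ?_
    omega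

theorem sum_cost (d : ℕ) : ∑ i ∈ Finset.range d, 2 * (d - i - 1) = d * (d - 1) := by
  have h := Finset.sum_range_reflect (fun i => 2 * i) d
  have h1 : ∑ i ∈ Finset.range d, 2 * (d - i - 1) = ∑ i ∈ Finset.range d, 2 * (d - 1 - i) :=
    Finset.sum_congr rfl fun i _ => by omega
  rw [h1, h, ← Finset.mul_sum, mul_comm, Finset.sum_range_id_mul_two]

theorem perm_cost {G : Type} [Group G] (d : ℕ) (φ : G →* Equiv.Perm (Fin d)) :
    ChainCost ⊤ φ.ker (d * (d - 1)) := by
  have h := cost_fixSub φ d le_rfl
  rw [fixSub_last, sum_cost] at h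
  exact h

end Pool.Agent.PWI
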