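import Pool.Agent.PWI.Auto

/-!
# PWJ: rotation and slides of handles, as explicit automorphisms
-/

namespace Pool.Agent.PWI

open FreeGroup

namespace LocX

def k : FreeGroup (Gen 2 0) := a'⁻¹ * b * a * b⁻¹
def k' : FreeGroup (Gen 2 0) := a'⁻¹ * b
def Uf := mk4 a (a'⁻¹ * b) (k * a' * k⁻¹) (b' * k⁻¹)
def Ug := mk4 a (k⁻¹ * a' * k * b) (k⁻¹ * a' * k) (b' * k)
def Vf := mk4 (a * a') (a'⁻¹ * b * a') (k' * a' * k'⁻¹) (b' * k'⁻¹)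
def Vg := mk4 (a * k'⁻¹ * a'⁻¹ * k') (k'⁻¹ * a' * k' * b * k'⁻¹ * a'⁻¹ * k') (k'⁻¹ * a' * k')
  (b' * k')

end LocX

theorem locR : ∃ θ : StF 1 0, θ.1 (of (Gen.a 0)) = (of (Gen.b 0))⁻¹ := by
  refine ⟨mkSt 1 (mk2 (of (Gen.b 0))⁻¹ (of (Gen.b 0) * of (Gen.a 0) * (of (Gen.b 0))⁻¹))
    (mk2 (of (Gen.a 0) * of (Gen.b 0) * (of (Gen.a 0))⁻¹) (of (Gen.a 0))⁻¹)
    (forallGen1 (p := fun x => FreeGroup.lift _ _ = of x) (by decide))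
    (forallGen1 (p := fun x => FreeGroup.lift _ _ = of x) (by decide)) (by decide), ?_⟩
  rw [mkSt_apply]; decide

theorem locU : ∃ θ : StF 2 0, θ.1 (of (Gen.a 0)) = of (Gen.a 0) ∧
    θ.1 (of (Gen.b 0)) = (of (Gen.a 1))⁻¹ * of (Gen.b 0) := by
  refine ⟨mkSt 2 LocX.Uf LocX.Ug
    (forallGen2 (p := fun x => FreeGroup.lift LocX.Uf (LocX.Ug x) = of x) (by decide))
    (forallGen2 (p := fun x => FreeGroup.lift LocX.Ug (LocX.Uf x) = of x) (by decide))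
    (by decide), ?_, ?_⟩
  all_goals rw [mkSt_apply]; decide

theorem locV : ∃ θ : StF 2 0, θ.1 (of (Gen.a 0)) = of (Gen.a 0) * of (Gen.a 1) := by
  refine ⟨mkSt 2 LocX.Vf LocX.Vg
    (forallGen2 (p := fun x => FreeGroup.lift LocX.Vf (LocX.Vg x) = of x) (by decide))
    (forallGen2 (p := fun x => FreeGroup.lift LocX.Vg (LocX.Vf x) = of x) (by decide))
    (by decide), ?_⟩
  rw [mkSt_apply]; decide

theorem locI : ∃ θ : StF 2 0, θ.1 (of (Gen.a 1)) = of (Gen.a 0) ∧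
    θ.1 (of (Gen.b 1)) = of (Gen.b 0) := by
  obtain ⟨θ, -, -, h3, h4⟩ := locS _ _ _ _ _ rfl rfl rfl rfl rfl
  exact ⟨θ, h3, h4⟩

end Pool.Agent.PWI
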