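import Pool.Agent.PWJ.Sup

/-!
# PWJ: the region lemma
-/

namespace Pool.Agent.PWI

open scoped Pointwise

variable {g n : ℕ}

/-- Cosets of `N` reached by the values of simple curves of the handles `q, ..., r - 1`. -/
def RS (N : Subgroup (SG g n)) (T : PMod g n) (q r : ℕ) : Set (SG g n ⧸ N) :=
  {c | ∃ v ∈ (Sim q r : Set (SG g n)), c = QuotientGroup.mk (T.1 v)}

theorem cosets_bound (N P : Subgroup (SG g n)) (hn : N.relIndex P ≠ 0)
    (A : Set (SG g n ⧸ N)) (hA : ∀ c ∈ A, ∃ y ∈ P, c = QuotientGroup.mk y) :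
    A.Finite ∧ A.ncard ≤ N.relIndex P := by
  classical
  have hfin : Finite (P ⧸ N.subgroupOf P) := by
    rw [Subgroup.relIndex, Subgroup.index] at hn
    exact Nat.finite_of_card_ne_zero hn
  let ψ : (P ⧸ N.subgroupOf P) → SG g n ⧸ N := fun c => QuotientGroup.mk (c.out : P).1
  have hsub : A ⊆ Set.range ψ := by
    intro c hc
    obtain ⟨y, hy, rfl⟩ := hA c hc
    refine ⟨QuotientGroup.mk ⟨y, hy⟩, ?_⟩
    obtain ⟨h, hh⟩ := QuotientGroup.mk_out_eq_mul (N.subgroupOf P) (⟨y, hy⟩ : P)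
    show (QuotientGroup.mk ((QuotientGroup.mk ⟨y, hy⟩ : P ⧸ N.subgroupOf P).out : P).1 :
      SG g n ⧸ N) = _
    rw [hh]
    have hN : (h.1.1 : SG g n) ∈ N := by
      have := h.2
      rwa [Subgroup.mem_subgroupOf] at this
    rw [QuotientGroup.eq]
    have e : ((⟨y, hy⟩ * (h.1 : P) : P).1)⁻¹ * y = (h.1.1 : SG g n)⁻¹ := by
      show (y * h.1.1)⁻¹ * y = _
      group
    rw [e]
    exact N.inv_mem hN
  have hr : (Set.range ψ).Finite := Set.finite_range ψ
  refine ⟨hr.subset hsub, (Set.ncard_le_ncard hsub hr).trans ?_⟩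
  have : (Set.range ψ).ncard ≤ Nat.card (P ⧸ N.subgroupOf P) := by
    rw [← Set.image_univ, ← Set.ncard_univ]
    exact Set.ncard_image_le Set.finite_univ
  exact this

/-- The cosets reached by the simple curves of the last handles are permuted by the handles
before. -/
def Inv (N : Subgroup (SG g n)) (T : PMod g n) (l q r : ℕ) : Prop :=
  ∀ t ∈ (Wi l q : Subgroup (SG g n)), ∀ v ∈ (Sim q r : Set (SG g n)),
    ∃ w ∈ (Sim q r : Set (SG g n)), (T.1 w)⁻¹ * T.1 (t * v) ∈ N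

theorem Inv.comp {N : Subgroup (SG g n)} {T S : PMod g n} {l q r : ℕ} (h : Inv N T l q r)
    (hS : SuppI S l q) : Inv N (T * S) l q r := by
  intro t ht v hv
  obtain ⟨w, hw, h1⟩ := h (S.1 t) (hS.2.1 t ht) v hv
  refine ⟨w, hw, ?_⟩
  show (T.1 (S.1 w))⁻¹ * T.1 (S.1 (t * v)) ∈ N
  rw [map_mul S.1, hS.fix (Or.inr le_rfl) (Sim_sub hw), hS.fix (Or.inr le_rfl) (Sim_sub hv)]
  exact h1

/-- Invariance under the generators is enough. -/
theorem inv_of_gens (N : Subgroup (SG g n)) (T : PMod g n) (l q r : ℕ)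
    (hfin : (RS N T q r).Finite)
    (h : ∀ p, l ≤ p → p < q → ∀ v ∈ (Sim q r : Set (SG g n)),
      (QuotientGroup.mk (T.1 (sa p * v)) : SG g n ⧸ N) ∈ RS N T q r ∧
      (QuotientGroup.mk (T.1 ((sb p)⁻¹ * v)) : SG g n ⧸ N) ∈ RS N T q r) :
    Inv N T l q r := by
  have key : ∀ x ∈ (Wi l q : Subgroup (SG g n)),
      T.1 x ∈ MulAction.stabilizer (SG g n) (RS N T q r) := by
    apply Wi_map_le
    intro p h1 h2
    constructor
    · rw [MulAction.mem_stabilizer_set' hfin]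
      rintro c ⟨v, hv, rfl⟩
      have := (h p h1 h2 v hv).1
      rw [map_mul] at this
      exact this
    · rw [← inv_mem_iff, MulAction.mem_stabilizer_set' hfin]
      rintro c ⟨v, hv, rfl⟩
      have := (h p h1 h2 v hv).2
      rw [map_mul, map_inv] at this
      exact this
  intro t ht v hv
  have h1 := key t ht
  rw [MulAction.mem_stabilizer_set' hfin] at h1
  obtain ⟨w, hw, e⟩ := h1 (⟨v, hv, rfl⟩ : (QuotientGroup.mk (T.1 v) : SG g n ⧸ N) ∈ RS N T q r)
  refine ⟨w, hw, ?_⟩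
  have e' : (QuotientGroup.mk (T.1 w) : SG g n ⧸ N) = QuotientGroup.mk (T.1 (t * v)) := by
    rw [map_mul]
    exact e.symm
  exact QuotientGroup.eq.1 e'

theorem reg (P N : Subgroup (SG g n)) (hn : N.relIndex P ≠ 0) (T : PMod g n)
    (l r : ℕ) (hr : r ≤ g) (hlr : l + N.relIndex P ≤ r)
    (hT : ∀ x ∈ (Wi l r : Subgroup (SG g n)), T.1 x ∈ P) :
    ∃ (S : PMod g n) (i : ℕ), SuppI S l r ∧ i + 1 ≤ N.relIndex P ∧
      Inv N (T * S) l (r - i) r := by
  have hb : ∀ (S : PMod g n) (q : ℕ), SuppI S l r → l ≤ q →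
      (RS N (T * S) q r).Finite ∧ (RS N (T * S) q r).ncard ≤ N.relIndex P := by
    intro S q hS hq
    refine cosets_bound N P hn _ ?_
    rintro c ⟨v, hv, rfl⟩
    exact ⟨_, hT _ (hS.2.1 _ (Wi_mono hq le_rfl (Sim_sub hv))), rfl⟩
  -- one more coset from one more handle
  have grow : ∀ (q p : ℕ) (S : PMod g n) (v : SG g n), SuppI S l r → l ≤ p → p ≤ q → q < r →
      v ∈ (Sim (q + 1) r : Set (SG g n)) →
      ((QuotientGroup.mk ((T * S).1 (sa p * v)) : SG g n ⧸ N) ∉ RS N (T * S) (q + 1) r ∨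
      (QuotientGroup.mk ((T * S).1 ((sb p)⁻¹ * v)) : SG g n ⧸ N) ∉ RS N (T * S) (q + 1) r) →
      ∃ S' : PMod g n, SuppI S' l r ∧
        (RS N (T * S) (q + 1) r).ncard + 1 ≤ (RS N (T * S') q r).ncard := by
    intro q p S v hS hlp hpq hqr hv hnot
    obtain ⟨R, hR, e1, e2⟩ := bring (g := g) (n := n) p q hpq (by omega)
    have hfixv : ∀ w ∈ (Sim (q + 1) r : Set (SG g n)), R.1 w = w := fun w hw =>
      hR.fix (Or.inr le_rfl) (Sim_sub hw)
    have hSR : SuppI (S * R) l r := hS.mul (hR.mono hlp (by omega))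
    have hfin := (hb (S * R) q hSR (by omega)).1
    have hold : RS N (T * S) (q + 1) r ⊆ RS N (T * (S * R)) q r := by
      rintro c ⟨w, hw, rfl⟩
      refine ⟨w, Sim_left_one hr hw, ?_⟩
      show _ = (QuotientGroup.mk (T.1 (S.1 (R.1 w))) : SG g n ⧸ N)
      rw [hfixv w hw]
      rfl
    have gen : ∀ (t t' : SG g n), R.1 t' = t → t' ∈ (Sim q (q + 1) : Set (SG g n)) →
        (QuotientGroup.mk ((T * S).1 (t * v)) : SG g n ⧸ N) ∉ RS N (T * S) (q + 1) r →
        (RS N (T * S) (q + 1) r).ncard + 1 ≤ (RS N (T * (S * R)) q r).ncard := by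
      intro t t' het hmem hn'
      have hnew : (QuotientGroup.mk ((T * S).1 (t * v)) : SG g n ⧸ N) ∈
          RS N (T * (S * R)) q r := by
        refine ⟨t' * v, Sim_mul hqr hr hmem hv, ?_⟩
        show _ = (QuotientGroup.mk (T.1 (S.1 (R.1 (t' * v)))) : SG g n ⧸ N)
        rw [map_mul R.1, het, hfixv v hv]
        rfl
      have hold_fin : (RS N (T * S) (q + 1) r).Finite := hfin.subset hold
      rw [← Set.ncard_insert_of_notMem hn' hold_fin]
      exact Set.ncard_le_ncard (Set.insert_subset hnew hold) hfin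
    refine ⟨S * R, hSR, ?_⟩
    rcases hnot with h | h
    · exact gen _ (sa q) e1 (sa_mem_Sim (Nat.lt_succ_self q)) h
    · exact gen _ (sb q)⁻¹ (by rw [map_inv, e2]) (sb_inv_mem_Sim (Nat.lt_succ_self q) (by omega)) h
  have main : ∀ (d i : ℕ) (S : PMod g n), SuppI S l r → i + 1 + d = N.relIndex P →
      i + 1 ≤ (RS N (T * S) (r - i) r).ncard →
      ∃ (S : PMod g n) (i : ℕ), SuppI S l r ∧ i + 1 ≤ N.relIndex P ∧
        Inv N (T * S) l (r - i) r := by
    intro d
    induction d with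
    | zero =>
      intro i S hS hi hcard
      by_cases hI : Inv N (T * S) l (r - i) r
      · exact ⟨S, i, hS, by omega, hI⟩
      exfalso
      apply hI
      apply inv_of_gens _ _ _ _ _ (hb S (r - i) hS (by omega)).1
      intro p h1 h2 v hv
      by_contra hc
      rw [not_and_or] at hc
      obtain ⟨q, hq⟩ : ∃ q, r - i = q + 1 := ⟨r - i - 1, by omega⟩
      rw [hq] at hv hc hcard h2
      obtain ⟨S', hS', h3⟩ := grow q p S v hS h1 (by omega) (by omega) hv hc
      have h4 := (hb S' q hS' (by omega)).2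
      omega
    | succ d ih =>
      intro i S hS hi hcard
      by_cases hI : Inv N (T * S) l (r - i) r
      · exact ⟨S, i, hS, by omega, hI⟩
      by_contra hgoal
      apply hI
      apply inv_of_gens _ _ _ _ _ (hb S (r - i) hS (by omega)).1
      intro p h1 h2 v hv
      by_contra hc
      rw [not_and_or] at hc
      obtain ⟨q, hq⟩ : ∃ q, r - i = q + 1 := ⟨r - i - 1, by omega⟩
      rw [hq] at hv hc hcard h2
      obtain ⟨S', hS', h3⟩ := grow q p S v hS h1 (by omega) (by omega) hv hc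
      apply hgoal
      have hq' : r - (i + 1) = q := by omega
      exact ih (i + 1) S' hS' (by omega) (by rw [hq']; omega)
  obtain ⟨d, hd⟩ : ∃ d, 0 + 1 + d = N.relIndex P := ⟨N.relIndex P - 1, by omega⟩
  refine main d 0 1 (SuppI.one _ _) hd ?_
  have h1 := (hb 1 r (SuppI.one _ _) (by omega)).1
  rw [Nat.sub_zero, Nat.succ_le_iff, Set.ncard_pos h1]
  exact ⟨_, 1, one_mem_Sim _ _, rfl⟩

end Pool.Agent.PWI
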