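import Pool.Agent.PWJ.Loc2

/-!
# PWJ: mapping classes supported on an interval of handles
-/

namespace Pool.Agent.PWI

variable {g n : ℕ}

/-- The subgroup generated by the handles `q, ..., r - 1`. -/
def Wi (q r : ℕ) : Subgroup (SG g n) :=
  Subgroup.closure {x | ∃ k, q ≤ k ∧ k < r ∧ (x = sa k ∨ x = sb k)}

/-- `S` is supported on the handles `q, ..., r - 1`. -/
def SuppI (S : PMod g n) (q r : ℕ) : Prop :=
  Fixes S {k | q ≤ k ∧ k < r} ∧
    (∀ x ∈ (Wi q r : Subgroup (SG g n)), S.1 x ∈ (Wi q r : Subgroup (SG g n))) ∧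
    ∀ x ∈ (Wi q r : Subgroup (SG g n)), (S⁻¹).1 x ∈ (Wi q r : Subgroup (SG g n))

theorem sa_mem_Wi {q r k : ℕ} (h1 : q ≤ k) (h2 : k < r) :
    (sa k : SG g n) ∈ (Wi q r : Subgroup (SG g n)) :=
  Subgroup.subset_closure ⟨k, h1, h2, Or.inl rfl⟩

theorem sb_mem_Wi {q r k : ℕ} (h1 : q ≤ k) (h2 : k < r) :
    (sb k : SG g n) ∈ (Wi q r : Subgroup (SG g n)) :=
  Subgroup.subset_closure ⟨k, h1, h2, Or.inr rfl⟩

/-- To map an interval of handles into a subgroup it suffices to map its generators. -/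
theorem Wi_map_le {q r : ℕ} (S : PMod g n) (P : Subgroup (SG g n))
    (h : ∀ k, q ≤ k → k < r → S.1 (sa k) ∈ P ∧ S.1 (sb k) ∈ P) :
    ∀ x ∈ (Wi q r : Subgroup (SG g n)), S.1 x ∈ P := by
  intro x hx
  unfold Wi at hx
  induction hx using Subgroup.closure_induction with
  | mem x hx =>
    obtain ⟨k, h1, h2, rfl | rfl⟩ := hx
    · exact (h k h1 h2).1
    · exact (h k h1 h2).2
  | one => rw [map_one]; exact P.one_mem
  | mul x y _ _ hx hy => rw [map_mul]; exact P.mul_mem hx hy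
  | inv x _ hx => rw [map_inv]; exact P.inv_mem hx

theorem Wi_mono {q r q' r' : ℕ} (h1 : q' ≤ q) (h2 : r ≤ r') :
    (Wi q r : Subgroup (SG g n)) ≤ Wi q' r' := by
  apply Subgroup.closure_mono
  rintro x ⟨k, hk1, hk2, hx⟩
  exact ⟨k, by omega, by omega, hx⟩

theorem SuppI.one (q r : ℕ) : SuppI (1 : PMod g n) q r :=
  ⟨fixes_one _, fun _ hx => hx, fun x hx => by rw [inv_one]; exact hx⟩

theorem SuppI.mul {S T : PMod g n} {q r : ℕ} (hS : SuppI S q r) (hT : SuppI T q r) :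
    SuppI (S * T) q r := by
  refine ⟨hS.1.mul hT.1, fun x hx => hS.2.1 _ (hT.2.1 x hx), fun x hx => ?_⟩
  rw [mul_inv_rev]
  exact hT.2.2 _ (hS.2.2 x hx)

theorem SuppI.inv {S : PMod g n} {q r : ℕ} (hS : SuppI S q r) : SuppI S⁻¹ q r :=
  ⟨hS.1.inv, hS.2.2, fun x hx => by rw [inv_inv]; exact hS.2.1 x hx⟩

/-- A mapping class supported on an interval fixes the subgroup of a disjoint interval. -/
theorem SuppI.fix {S : PMod g n} {q r : ℕ} (hS : SuppI S q r) {q' r' : ℕ}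
    (h : r' ≤ q ∨ r ≤ q') {x : SG g n} (hx : x ∈ (Wi q' r' : Subgroup (SG g n))) :
    S.1 x = x := by
  unfold Wi at hx
  induction hx using Subgroup.closure_induction with
  | mem x hx =>
    obtain ⟨k, h1, h2, hk⟩ := hx
    have h3 := hS.1.1 k (by simp only [Set.mem_ofPred_eq]; omega)
    rcases hk with rfl | rfl
    · exact h3.1
    · exact h3.2
  | one => rw [map_one]
  | mul x y _ _ hx hy => rw [map_mul, hx, hy]
  | inv x _ hx => rw [map_inv, hx]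

private theorem supp_mono_aux {S : PMod g n} {q r : ℕ} (hS : SuppI S q r) {q' r' : ℕ}
    (h1 : q' ≤ q) (h2 : r ≤ r') :
    ∀ x ∈ (Wi q' r' : Subgroup (SG g n)), S.1 x ∈ (Wi q' r' : Subgroup (SG g n)) := by
  apply Wi_map_le
  intro k hk1 hk2
  by_cases hk : q ≤ k ∧ k < r
  · exact ⟨Wi_mono h1 h2 (hS.2.1 _ (sa_mem_Wi hk.1 hk.2)),
      Wi_mono h1 h2 (hS.2.1 _ (sb_mem_Wi hk.1 hk.2))⟩
  · have h3 := hS.1.1 k hk
    rw [h3.1, h3.2]
    exact ⟨sa_mem_Wi hk1 hk2, sb_mem_Wi hk1 hk2⟩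

theorem SuppI.mono {S : PMod g n} {q r : ℕ} (hS : SuppI S q r) {q' r' : ℕ}
    (h1 : q' ≤ q) (h2 : r ≤ r') : SuppI S q' r' :=
  ⟨hS.1.mono (fun _ hk => ⟨h1.trans hk.1, hk.2.trans_le h2⟩), supp_mono_aux hS h1 h2,
    supp_mono_aux hS.inv h1 h2⟩

theorem iota_mem_Wi (m i : ℕ) (x : FreeGroup (Gen m 0)) :
    (iota m i x : SG g n) ∈ (Wi i (i + m) : Subgroup (SG g n)) := by
  induction x using FreeGroup.induction_on with
  | C1 => rw [map_one]; exact (Wi _ _).one_mem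
  | of y =>
    rcases y with k | k | k
    · rw [iota_a]; exact sa_mem_Wi (by omega) (by have := k.2; omega)
    · rw [iota_b]; exact sb_mem_Wi (by omega) (by have := k.2; omega)
    · exact k.elim0
  | inv_of y hy => rw [map_inv]; exact (Wi _ _).inv_mem hy
  | mul x y hx hy => rw [map_mul]; exact (Wi _ _).mul_mem hx hy

/-- Local automorphisms give mapping classes supported on an interval. -/
theorem ext_supp (m i : ℕ) (h : i + m ≤ g) (θ : St m) : ∃ S : PMod g n,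
    SuppI S i (i + m) ∧ ∀ x : FreeGroup (Gen m 0), S.1 (iota m i x) = iota m i (θ.1 x) := by
  obtain ⟨E, h1, h2⟩ := ext_exists (g := g) (n := n) m i h
  have key : ∀ τ : St m, ∀ x ∈ (Wi i (i + m) : Subgroup (SG g n)),
      (E τ).1 x ∈ (Wi i (i + m) : Subgroup (SG g n)) := by
    intro τ
    apply Wi_map_le
    intro k hk1 hk2
    obtain ⟨j, rfl⟩ : ∃ j, k = i + j := ⟨k - i, by omega⟩
    have e1 := h1 τ (FreeGroup.of (Gen.a ⟨j, by omega⟩))
    have e2 := h1 τ (FreeGroup.of (Gen.b ⟨j, by omega⟩))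
    rw [iota_a] at e1
    rw [iota_b] at e2
    constructor
    · rw [e1]; exact iota_mem_Wi m i _
    · rw [e2]; exact iota_mem_Wi m i _
  refine ⟨E θ, ⟨h2 θ, key θ, ?_⟩, h1 θ⟩
  rw [← map_inv]
  exact key θ⁻¹

/-- The rotation of the handle `q`. -/
theorem exR (q : ℕ) (h : q < g) :
    ∃ S : PMod g n, SuppI S q (q + 1) ∧ S.1 (sa q) = (sb q)⁻¹ := by
  obtain ⟨θ, h1⟩ := locR
  obtain ⟨S, hS, e⟩ := ext_supp (g := g) (n := n) 1 q (by omega) θ
  refine ⟨S, hS, ?_⟩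
  have := e (FreeGroup.of (Gen.a 0))
  rw [h1, map_inv, iota_a, iota_b] at this
  exact this

/-- The slide of handle `q` fixing `a_q`. -/
theorem exU (q : ℕ) (h : q + 1 < g) : ∃ S : PMod g n, SuppI S q (q + 2) ∧
    S.1 (sa q) = sa q ∧ S.1 (sb q) = (sa (q + 1))⁻¹ * sb q := by
  obtain ⟨θ, h1, h2⟩ := locU
  obtain ⟨S, hS, e⟩ := ext_supp (g := g) (n := n) 2 q (by omega) θ
  refine ⟨S, hS, ?_, ?_⟩
  · have := e (FreeGroup.of (Gen.a 0))
    rw [h1, iota_a] at this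
    exact this
  · have := e (FreeGroup.of (Gen.b 0))
    rw [h2, map_mul, map_inv, iota_a, iota_b] at this
    exact this

/-- The slide of handle `q` multiplying `a_q`. -/
theorem exV (q : ℕ) (h : q + 1 < g) : ∃ S : PMod g n, SuppI S q (q + 2) ∧
    S.1 (sa q) = sa q * sa (q + 1) := by
  obtain ⟨θ, h1⟩ := locV
  obtain ⟨S, hS, e⟩ := ext_supp (g := g) (n := n) 2 q (by omega) θ
  refine ⟨S, hS, ?_⟩
  have := e (FreeGroup.of (Gen.a 0))
  rw [h1, map_mul, iota_a, iota_a] at this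
  exact this

/-- The swap. -/
theorem exI (q : ℕ) (h : q + 1 < g) : ∃ S : PMod g n, SuppI S q (q + 2) ∧
    S.1 (sa (q + 1)) = sa q ∧ S.1 (sb (q + 1)) = sb q := by
  obtain ⟨θ, h1, h2⟩ := locI
  obtain ⟨S, hS, e⟩ := ext_supp (g := g) (n := n) 2 q (by omega) θ
  refine ⟨S, hS, ?_, ?_⟩
  · have := e (FreeGroup.of (Gen.a 1))
    rw [h1, iota_a, iota_a] at this
    exact this
  · have := e (FreeGroup.of (Gen.b 1))
    rw [h2, iota_b, iota_b] at this
    exact this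

/-- Bring the handle `p` to the place `q`. -/
theorem bring (p q : ℕ) (hpq : p ≤ q) (hq : q < g) : ∃ S : PMod g n, SuppI S p (q + 1) ∧
    S.1 (sa q) = sa p ∧ S.1 (sb q) = sb p := by
  obtain ⟨d, rfl⟩ : ∃ d, q = p + d := ⟨q - p, by omega⟩
  clear hpq
  induction d with
  | zero => exact ⟨1, SuppI.one _ _, rfl, rfl⟩
  | succ d ih =>
    obtain ⟨S, hS, e1, e2⟩ := ih (by omega)
    obtain ⟨R, hR, f1, f2⟩ := exI (g := g) (n := n) (p + d) (by omega)
    refine ⟨S * R, (hS.mono le_rfl (by omega)).mul (hR.mono (by omega) (by omega)), ?_, ?_⟩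
    · show S.1 (R.1 (sa (p + d + 1))) = sa p
      rw [f1, e1]
    · show S.1 (R.1 (sb (p + d + 1))) = sb p
      rw [f2, e2]

/-- Values of `a_q` under mapping classes supported on `q, ..., r - 1`, and `1`. -/
def Sim (q r : ℕ) : Set (SG g n) :=
  {x | x = 1 ∨ q < r ∧ ∃ S : PMod g n, SuppI S q r ∧ x = S.1 (sa q)}

theorem one_mem_Sim (q r : ℕ) : (1 : SG g n) ∈ (Sim q r : Set (SG g n)) := Or.inl rfl

theorem Sim_sub {q r : ℕ} {x : SG g n} (hx : x ∈ (Sim q r : Set (SG g n))) :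
    x ∈ (Wi q r : Subgroup (SG g n)) := by
  rcases hx with rfl | ⟨h, S, hS, rfl⟩
  · exact (Wi _ _).one_mem
  · exact hS.2.1 _ (sa_mem_Wi le_rfl h)

theorem Sim_left_one {q r : ℕ} (hr : r ≤ g) {x : SG g n}
    (hx : x ∈ (Sim (q + 1) r : Set (SG g n))) : x ∈ (Sim q r : Set (SG g n)) := by
  rcases hx with rfl | ⟨h, S, hS, rfl⟩
  · exact one_mem_Sim _ _
  · obtain ⟨R, hR, f1, -⟩ := exI (g := g) (n := n) q (by omega)
    refine Or.inr ⟨by omega, S * R⁻¹, (hS.mono (by omega) le_rfl).mul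
      (hR.inv.mono le_rfl (by omega)), ?_⟩
    show S.1 (sa (q + 1)) = S.1 ((R⁻¹).1 (sa q))
    rw [act_inv_eq f1]

theorem Sim_left {q q' r : ℕ} (hr : r ≤ g) (hq : q ≤ q') {x : SG g n}
    (hx : x ∈ (Sim q' r : Set (SG g n))) : x ∈ (Sim q r : Set (SG g n)) := by
  obtain ⟨d, rfl⟩ : ∃ d, q' = q + d := ⟨q' - q, by omega⟩
  clear hq
  induction d with
  | zero => exact hx
  | succ d ih => exact ih (Sim_left_one hr hx)

theorem Sim_right {q r r' : ℕ} (hr : r ≤ r') {x : SG g n}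
    (hx : x ∈ (Sim q r : Set (SG g n))) : x ∈ (Sim q r' : Set (SG g n)) := by
  rcases hx with rfl | ⟨h, S, hS, rfl⟩
  · exact one_mem_Sim _ _
  · exact Or.inr ⟨by omega, S, hS.mono le_rfl hr, rfl⟩

theorem sa_mem_Sim {q r : ℕ} (h : q < r) : (sa q : SG g n) ∈ (Sim q r : Set (SG g n)) :=
  Or.inr ⟨h, 1, SuppI.one _ _, rfl⟩

theorem sb_inv_mem_Sim {q r : ℕ} (h : q < r) (hg : q < g) :
    (sb q : SG g n)⁻¹ ∈ (Sim q r : Set (SG g n)) := by
  obtain ⟨S, hS, e⟩ := exR (g := g) (n := n) q hg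
  exact Sim_right (by omega : q + 1 ≤ r) (Or.inr ⟨by omega, S, hS, e.symm⟩)

/-- `t v` is simple, for `t` in one handle and `v` in the handles behind it. -/
theorem Sim_mul {q r : ℕ} (hq : q < r) (hr : r ≤ g) {t v : SG g n}
    (ht : t ∈ (Sim q (q + 1) : Set (SG g n))) (hv : v ∈ (Sim (q + 1) r : Set (SG g n))) :
    t * v ∈ (Sim q r : Set (SG g n)) := by
  have hvW := Sim_sub hv
  rcases ht with rfl | ⟨-, S0, hS0, rfl⟩
  · rw [one_mul]; exact Sim_left_one hr hv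
  · rcases hv with rfl | ⟨h, S1, hS1, rfl⟩
    · rw [mul_one]
      exact Or.inr ⟨hq, S0, hS0.mono le_rfl (by omega), rfl⟩
    · obtain ⟨R, hR, f1⟩ := exV (g := g) (n := n) q (by omega)
      refine Or.inr ⟨hq, S0 * (S1 * R), (hS0.mono le_rfl (by omega)).mul
        ((hS1.mono (by omega) le_rfl).mul (hR.mono le_rfl (by omega))), ?_⟩
      show _ = S0.1 (S1.1 (R.1 (sa q)))
      rw [f1, map_mul, map_mul, hS1.fix (Or.inl le_rfl) (sa_mem_Wi le_rfl (Nat.lt_succ_self q)),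
        hS0.fix (Or.inr le_rfl) hvW]

/-- Slide: change `b_q` to `v⁻¹ b_q`, keep `a_q`. -/
theorem slideB {q r : ℕ} (hr : r ≤ g) {v : SG g n}
    (hv : v ∈ (Sim (q + 1) r : Set (SG g n))) : ∃ S : PMod g n, SuppI S q r ∧
    S.1 (sa q) = sa q ∧ S.1 (sb q) = v⁻¹ * sb q := by
  rcases hv with rfl | ⟨h, S1, hS1, rfl⟩
  · exact ⟨1, SuppI.one _ _, rfl, by rw [inv_one, one_mul]; rfl⟩
  · obtain ⟨R, hR, f1, f2⟩ := exU (g := g) (n := n) q (by omega)
    have ea : S1.1 (sa q) = sa q :=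
      hS1.fix (Or.inl le_rfl) (sa_mem_Wi le_rfl (Nat.lt_succ_self q))
    have eb : S1.1 (sb q) = sb q :=
      hS1.fix (Or.inl le_rfl) (sb_mem_Wi le_rfl (Nat.lt_succ_self q))
    have hS1' := hS1.mono (by omega : q ≤ q + 1) (le_refl r)
    refine ⟨S1 * (R * S1⁻¹), hS1'.mul ((hR.mono le_rfl (by omega)).mul hS1'.inv), ?_, ?_⟩
    · show S1.1 (R.1 ((S1⁻¹).1 (sa q))) = sa q
      rw [act_inv_eq ea, f1, ea]
    · show S1.1 (R.1 ((S1⁻¹).1 (sb q))) = _
      rw [act_inv_eq eb, f2, map_mul, map_inv, eb]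

/-- Slide: change `a_q` to `a_q v`. -/
theorem slideA {q r : ℕ} (hr : r ≤ g) {v : SG g n}
    (hv : v ∈ (Sim (q + 1) r : Set (SG g n))) : ∃ S : PMod g n, SuppI S q r ∧
    S.1 (sa q) = sa q * v := by
  rcases hv with rfl | ⟨h, S1, hS1, rfl⟩
  · exact ⟨1, SuppI.one _ _, by rw [mul_one]; rfl⟩
  · obtain ⟨R, hR, f1⟩ := exV (g := g) (n := n) q (by omega)
    have ea : S1.1 (sa q) = sa q :=
      hS1.fix (Or.inl le_rfl) (sa_mem_Wi le_rfl (Nat.lt_succ_self q))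
    have hS1' := hS1.mono (by omega : q ≤ q + 1) (le_refl r)
    refine ⟨S1 * (R * S1⁻¹), hS1'.mul ((hR.mono le_rfl (by omega)).mul hS1'.inv), ?_⟩
    show S1.1 (R.1 ((S1⁻¹).1 (sa q))) = _
    rw [act_inv_eq ea, f1, map_mul, ea]

end Pool.Agent.PWI
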